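import Mathlib
import Pool.Agent.Zk49.AMO2

set_option autoImplicit false

/-!
# 11 and 15 points: every degree with positive expected dimension; at most one unexpected curve

Let `n = 11` or `n = 15`, or `n = 27` and only degrees divisible by three. For every multiplicity `m` and
for `n` general points of the complex projective plane (one nonempty Zariski-open set for all degrees)
the space of forms of degree `d` vanishing to order `m` at the `n` points has the expected dimension
whenever `(d + 2).choose 2 > n * (m + 1).choose 2`, and dimension at most one in all other degrees; in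
these it is zero unless `3 ∣ d` and `3 (√n - 3) ≤ (√n + 3) (d - √n m)`. Moreover `n` general points of
multiplicity `m` together with one general simple point have the expected dimension in all degrees.
-/

namespace Pool.Agent.Results.MP_d03834_ag.AtMostOneUnexpectedCurve

theorem result (n : ℕ) (hn : n = 11 ∨ n = 15 ∨ n = 27) (m : ℕ) :
    (∃ F : MvPolynomial (Fin n × Fin 2) ℂ, F ≠ 0 ∧
      ∀ P : Fin n → Fin 2 → ℂ,
        MvPolynomial.eval (fun ij : Fin n × Fin 2 => P ij.1 ij.2) F ≠ 0 →
        ∀ d : ℕ, (n ≠ 27 ∨ 3 ∣ d) →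
          let H := Module.finrank ℂ
            ↥(MvPolynomial.homogeneousSubmodule (Fin 3) ℂ d ⊓
              Submodule.restrictScalars ℂ
                (⨅ i : Fin n,
                  (Ideal.span
                    ({MvPolynomial.X 0 - MvPolynomial.C (P i 0) * MvPolynomial.X 2,
                      MvPolynomial.X 1 - MvPolynomial.C (P i 1) * MvPolynomial.X 2} :
                      Set (MvPolynomial (Fin 3) ℂ))) ^ m))
          (n * (m + 1).choose 2 < (d + 2).choose 2 → H + n * (m + 1).choose 2 = (d + 2).choose 2) ∧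
          ((d + 2).choose 2 ≤ n * (m + 1).choose 2 → H ≤ 1) ∧
          ((d + 2).choose 2 ≤ n * (m + 1).choose 2 →
            ¬ (3 ∣ d ∧ 3 * (√(n : ℝ) - 3) ≤ (√(n : ℝ) + 3) * (d - √(n : ℝ) * m)) → H = 0)) ∧
    (∃ F : MvPolynomial (Fin (n + 1) × Fin 2) ℂ, F ≠ 0 ∧
      ∀ P : Fin (n + 1) → Fin 2 → ℂ,
        MvPolynomial.eval (fun ij : Fin (n + 1) × Fin 2 => P ij.1 ij.2) F ≠ 0 →
        ∀ d : ℕ, (n ≠ 27 ∨ 3 ∣ d) →
          Module.finrank ℂ
            ↥(MvPolynomial.homogeneousSubmodule (Fin 3) ℂ d ⊓
              Submodule.restrictScalars ℂ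
                (⨅ i : Fin (n + 1),
                  (Ideal.span
                    ({MvPolynomial.X 0 - MvPolynomial.C (P i 0) * MvPolynomial.X 2,
                      MvPolynomial.X 1 - MvPolynomial.C (P i 1) * MvPolynomial.X 2} :
                      Set (MvPolynomial (Fin 3) ℂ))) ^ (if (i : ℕ) < n then m else 1)))
          = Nat.choose (d + 2) 2 - (n * Nat.choose (m + 1) 2 + 1)) := by
  classical
  constructor
  · obtain ⟨F1, hF1, h1⟩ := Zk49.AMO.main hn m
    obtain ⟨F2, hF2, h2⟩ := N388.EFW.uniform3 hn m
    refine ⟨(F1 * F2).map (algebraMap ℚ ℂ), H932R3.map_ne_zero_of (mul_ne_zero hF1 hF2),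
      fun P hP d hd => ?_⟩
    rw [MvPolynomial.eval_map] at hP
    have hP' : MvPolynomial.aeval (fun ij : Fin n × Fin 2 => P ij.1 ij.2) (F1 * F2) ≠ 0 := hP
    rw [map_mul] at hP'
    obtain ⟨a1, a2⟩ := h1 P (left_ne_zero_of_mul hP') d hd
    have a3 := h2 P (right_ne_zero_of_mul hP') d
    have hsum : ∑ _i : Fin n, (m + 1).choose 2 = n * (m + 1).choose 2 := by simp
    intro H
    refine ⟨fun h => ?_, a2, fun h hne => ?_⟩
    · have h3 := a1 h
      unfold H932R3.ExpDim at h3
      rw [hsum] at h3
      change H = _ at h3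
      omega
    · have h3 : H932R3.ExpDim ℂ (fun _ => m) P d := by
        apply a3
        by_cases h3 : 3 ∣ d
        · right; left
          refine ⟨h3, ?_⟩
          by_contra hcon
          exact hne ⟨h3, not_lt.1 hcon⟩
        · left
          refine ⟨h3, ?_⟩
          rcases hd with hd | hd
          · exact hd
          · exact absurd hd h3
      unfold H932R3.ExpDim at h3
      rw [hsum] at h3
      change H = _ at h3
      omega
  · obtain ⟨F, hF, hF'⟩ := Zk49.AMO.quasi hn m
    refine ⟨F.map (algebraMap ℚ ℂ), H932R3.map_ne_zero_of hF, fun P hP d hd => ?_⟩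
    rw [MvPolynomial.eval_map] at hP
    have h1 := hF' P hP d hd
    have e : (Fin.snoc (α := fun _ => ℕ) (fun _ : Fin n => m) 1 : Fin (n + 1) → ℕ) =
        fun i : Fin (n + 1) => if (i : ℕ) < n then m else 1 := by
      funext i
      refine Fin.lastCases ?_ (fun i => ?_) i
      · simp
      · simp
    rw [e] at h1
    unfold H932R3.ExpDim at h1
    rw [h1]
    congr 1
    rw [Fin.sum_univ_castSucc]
    simp

end Pool.Agent.Results.MP_d03834_ag.AtMostOneUnexpectedCurve
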