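import Mathlib
import Pool.Agent.N141.SG.Seq7
import Pool.Agent.Zk98.SG.Grp

set_option autoImplicit false

/-!
# The uniform Harbourne-Hirschowitz conjecture for multiplicities in all sets with a multiplicative structure

Let `Q` be a polynomial with integral coefficients, not constant and with positive leading coefficient, for instance `Q(t) = t`.
Consider the multiplicities `m = Q(t)`, where `t` runs through a subset `S` of `(0, N]` with at least `κ N` elements. The set
`S` can be ANY set with a multiplicative structure (`Structured`): its indicator function is, up to a small error in the mean over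
`(0, N]`, a combination of bounded size of multiplicative functions into the unit disc, which can depend on `N`. For instance
`S` can be the set of the `t ≤ N` in `D` with `f(t) = a`, for

* ANY set `D` such that `m n ∈ D` if and only if `m ∈ D` and `n ∈ D`, for all coprime `m`, `n`: the squarefree integers, the integers
  coprime to all members of an arbitrary set of primes, …,
* ANY additive function `f` on `D` with values in an arbitrary finite abelian group, such as the number of the prime factors of `t` in an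
  arbitrary set of primes, modulo `k`, with or without multiplicity, or (for `D` in the integers coprime to `q`) the residue class of
  `t` modulo `q`, or several such functions.

**Theorem.** For all large `N`, uniformly in all these sets `S`:

(1) for at least `|S| / 10 ^ 89` members `t` of `S` the uniform conjecture holds for the multiplicity `m = Q(t)`, EVERY number `n ≥ 10` of
points and EVERY degree `d`;

(2) for every single `n ≥ 10` it holds for `m = Q(t)` and all degrees for all members `t` of `S`, but for at most `(bad n + δ) |S|` of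
them; `bad n = 0` for `n ≥ 37`, `n = 13`, `n = 21` and the squares, `bad 10 < 0.163`, `bad 11 < 0.053`, and `bad n < 1` always.

So no multiplicative condition on `t` can avoid the good multiplicities, or favour the others.

Proof. Whether `m` is good for `n` points depends on `m √n` modulo one, and it is good for all `n` if `m √r` is in a certain arc for 20
radicands `r` (files of helper141, `Pool.Agent.N141.SG`). The sums of `e (θ Q(t))`, `θ` irrational, over the sets `S` are `o (|S|)`,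
uniformly, by the criterion of Daboussi and Kátai in its uniform form (`Pool.Agent.W24.Katai`) and Weyl's theorem
(`Pool/Agent/Zk98/SG`).
-/

namespace Pool.Agent.Results.MP_d03834_ag.MultiplicativeStructure

open MvPolynomial Filter
open Pool.Agent.Zk98.SG (Structured transfer structured_group)

/-- For general points `P 1, …, P n` (outside the hypersurface `F = 0` of the space of all
configurations) the space of the forms of degree `d` which vanish to order at least `m` at all the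
points has the expected dimension, for every degree `d`. -/
def AllDegrees (n m : ℕ) : Prop :=
  ∃ F : MvPolynomial (Fin n × Fin 2) ℂ, F ≠ 0 ∧
    ∀ P : Fin n → Fin 2 → ℂ,
      MvPolynomial.eval (fun ij : Fin n × Fin 2 => P ij.1 ij.2) F ≠ 0 →
      ∀ d : ℕ,
        Module.finrank ℂ
          ↥(MvPolynomial.homogeneousSubmodule (Fin 3) ℂ d ⊓
            Submodule.restrictScalars ℂ
              (⨅ i : Fin n,
                (Ideal.span
                  ({MvPolynomial.X 0 - MvPolynomial.C (P i 0) * MvPolynomial.X 2,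
                    MvPolynomial.X 1 - MvPolynomial.C (P i 1) * MvPolynomial.X 2} :
                    Set (MvPolynomial (Fin 3) ℂ))) ^ m))
        = Nat.choose (d + 2) 2 - n * Nat.choose (m + 1) 2

/-- The conjecture holds for the multiplicity `m ≥ 1`: for every number `n ≥ 10` of points and every
degree. -/
def Holds (m : ℕ) : Prop := 1 ≤ m ∧ ∀ n : ℕ, 10 ≤ n → AllDegrees n m

open Classical in
/-- The bound for the proportion of the bad multiplicities for `n` points. -/
noncomputable def bad (n : ℕ) : ℝ :=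
  if 37 ≤ n ∨ n = 13 ∨ n = 21 ∨ IsSquare n then 0
  else if n = 11 ∨ n = 15 then (√(n : ℝ) - 3) / 6
  else (min (√(n : ℝ) - 3) (2 / 3 + 9 / (4 * √(n : ℝ))) +
    min (√(n : ℝ) - 3) (2 / 3 + 1 / (4 * √(n : ℝ)))) / 2

theorem allDegrees_of {n m : ℕ} (h : Pool.Agent.N141.SG.Ex n m) : AllDegrees n m := by
  obtain ⟨F, hF, hF'⟩ := h
  refine ⟨F.map (algebraMap ℚ ℂ), Pool.Agent.H932R3.map_ne_zero_of hF, fun P hP d => ?_⟩
  rw [MvPolynomial.eval_map] at hP
  have h1 := hF' P hP d
  unfold Pool.Agent.H932R3.ExpDim at h1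
  rw [Finset.sum_const, Finset.card_univ, Fintype.card_fin, smul_eq_mul] at h1
  exact h1

theorem holds_of {m : ℕ} (hm : 1 ≤ m) (h : Pool.Agent.N141.SG.Tgt (m : ℕ)) : Holds m :=
  ⟨hm, fun _ hn => allDegrees_of (Pool.Agent.N141.SG.every h hm hn)⟩

/-- all numbers of points at once -/
theorem all_points (Q : Polynomial ℤ) (hQ : 1 ≤ Q.natDegree) (hl : 0 < Q.leadingCoeff) (κ : ℝ) (hκ : 0 < κ) :
    ∃ η : ℝ, 0 < η ∧ ∀ C : ℝ, ∃ N₀ : ℕ, ∀ N : ℕ, N₀ ≤ N → ∀ S : Finset ℕ, Structured C η N S →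
      κ * N ≤ S.card → (S.card : ℝ) / 10 ^ 89 ≤
        ({t : ℕ | t ∈ S ∧ ∃ m : ℕ, (m : ℤ) = Q.eval (t : ℤ) ∧ Holds m}.ncard : ℝ) := by
  classical
  obtain ⟨M, hM⟩ := eventually_atTop.1 (Pool.Agent.N141.SG.poly_large hQ hl)
  have hpos : ∀ t : ℕ, max M 1 < t → 1 ≤ Q.eval (t : ℤ) := by
    intro t ht
    have h1 : M < t := (le_max_left _ _).trans_lt ht
    have h2 : 1 < t := (le_max_right _ _).trans_lt ht
    exact hM (t - 1) (by omega) t (Finset.mem_Ioc.2 ⟨by omega, by omega⟩)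
  obtain ⟨η, hη, h⟩ := transfer hQ hκ (max M 1)
    (fun S => (S.card : ℝ) / 10 ^ 88 ≤
      ({t : ℕ | t ∈ S ∧ ∃ m : ℕ, (m : ℤ) = Q.eval (t : ℤ) ∧ Holds m}.ncard : ℝ)) (by
    intro s hs hsm
    have h1 := Pool.Agent.N141.SG.tgt_of_freq (s := s) (v := fun n => Q.eval (n : ℤ)) (by
      intro θ hθ ε hε
      filter_upwards [hsm θ hθ.1 hθ.2.isAlgebraic ε hε] with j hj
      simp only [Pool.Agent.N141.SG.ee_eq] at hj
      exact hj)
    filter_upwards [h1] with j hj
    have h2 : (((s j).card : ℝ)) / 10 ^ 88 = 1 / 10000 ^ 22 * ((s j).card : ℝ) := by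
      have e1 : (10000 : ℝ) ^ 22 = 10 ^ 88 := by norm_num
      rw [e1]
      ring
    rw [h2]
    refine hj.trans ?_
    rw [Nat.cast_le]
    refine Set.ncard_le_ncard ?_ ((Finset.finite_toSet (s j)).subset fun t ht => ht.1)
    rintro t ⟨ht, hT⟩
    have h3 := hpos t (hs j t ht)
    have h4 : ((Q.eval (t : ℤ)).toNat : ℤ) = Q.eval (t : ℤ) := Int.toNat_of_nonneg (by omega)
    refine ⟨ht, (Q.eval (t : ℤ)).toNat, h4, holds_of (by omega) ?_⟩
    have hT' : Pool.Agent.N141.SG.Tgt (Q.eval (t : ℤ)) := hT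
    rw [← h4] at hT'
    exact hT')
  refine ⟨η, hη, fun C => ?_⟩
  obtain ⟨N₁, hN₁⟩ := h C
  obtain ⟨N₂, hN₂⟩ := exists_nat_ge (2 * (((max M 1 : ℕ) : ℝ) + 1) / κ)
  refine ⟨max N₁ N₂, fun N hN S hS hκS => ?_⟩
  have h1 := hN₁ N ((le_max_left _ _).trans hN) S hS hκS
  have h2 : 2 * (((max M 1 : ℕ) : ℝ) + 1) ≤ κ * N := by
    have h3 : 2 * (((max M 1 : ℕ) : ℝ) + 1) / κ ≤ N := hN₂.trans (by exact_mod_cast (le_max_right _ _).trans hN)
    rw [div_le_iff₀ hκ] at h3
    linarith
  have h3 : ((S.filter (max M 1 < ·)).card : ℝ) ≥ S.card - (((max M 1 : ℕ) : ℝ) + 1) := by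
    have h4 := Finset.card_filter_add_card_filter_not (s := S) (max M 1 < ·)
    have h5 : (S.filter fun t => ¬ max M 1 < t).card ≤ max M 1 + 1 := by
      have h6 : S.filter (fun t => ¬ max M 1 < t) ⊆ Finset.range (max M 1 + 1) := by
        intro t ht
        rw [Finset.mem_filter] at ht
        exact Finset.mem_range.2 (by omega)
      have := Finset.card_le_card h6
      rwa [Finset.card_range] at this
    have h6 : ((S.filter (max M 1 < ·)).card : ℝ) + ((S.filter fun t => ¬ max M 1 < t).card : ℝ) = S.card := by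
      exact_mod_cast h4
    have h7 : ((S.filter fun t => ¬ max M 1 < t).card : ℝ) ≤ ((max M 1 : ℕ) : ℝ) + 1 := by exact_mod_cast h5
    linarith
  have h4 : (S.card : ℝ) / 10 ^ 89 ≤ ((S.filter (max M 1 < ·)).card : ℝ) / 10 ^ 88 := by
    have h5 : (S.card : ℝ) ≤ 10 * ((S.filter (max M 1 < ·)).card : ℝ) := by
      have h6 : (0 : ℝ) ≤ ((max M 1 : ℕ) : ℝ) := Nat.cast_nonneg _
      linarith
    rw [div_le_div_iff₀ (by positivity) (by positivity)]
    have e1 : (10 : ℝ) ^ 89 = 10 * 10 ^ 88 := by norm_num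
    rw [e1]
    have := mul_le_mul_of_nonneg_right h5 (show (0 : ℝ) ≤ 10 ^ 88 by positivity)
    linarith
  refine h4.trans (h1.trans ?_)
  rw [Nat.cast_le]
  refine Set.ncard_le_ncard ?_ ((Finset.finite_toSet S).subset fun t ht => ht.1)
  rintro t ⟨ht, h5⟩
  exact ⟨(Finset.mem_filter.1 ht).1, h5⟩

/-- one number of points -/
theorem one_number (Q : Polynomial ℤ) (hQ : 1 ≤ Q.natDegree) (κ : ℝ) (hκ : 0 < κ) (n : ℕ) (hn : 10 ≤ n) (δ : ℝ)
    (hδ : 0 < δ) :
    ∃ η : ℝ, 0 < η ∧ ∀ C : ℝ, ∃ N₀ : ℕ, ∀ N : ℕ, N₀ ≤ N → ∀ S : Finset ℕ, Structured C η N S →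
      κ * N ≤ S.card →
        ({t : ℕ | t ∈ S ∧ ∃ m : ℕ, 1 ≤ m ∧ (m : ℤ) = Q.eval (t : ℤ) ∧ ¬ AllDegrees n m}.ncard : ℝ) ≤
          (bad n + δ) * S.card := by
  classical
  obtain ⟨η, hη, h⟩ := transfer hQ hκ 0
    (fun S => ({t : ℕ | t ∈ S ∧ ∃ m : ℕ, 1 ≤ m ∧ (m : ℤ) = Q.eval (t : ℤ) ∧ ¬ AllDegrees n m}.ncard : ℝ) ≤
      (bad n + δ) * S.card) (by
    intro s _ hsm
    have h1 := Pool.Agent.N141.SG.one_seq hn (s := s) (v := fun n => Q.eval (n : ℤ)) (by
      intro θ hθ hθa ε hε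
      filter_upwards [hsm θ hθ hθa ε hε] with j hj
      simp only [Pool.Agent.N141.SG.ee_eq] at hj
      exact hj) hδ
    filter_upwards [h1] with j hj
    refine le_trans ?_ hj
    rw [Nat.cast_le]
    refine Set.ncard_le_ncard ?_ ((Finset.finite_toSet (s j)).subset fun t ht => ht.1)
    rintro t ⟨ht, m, hm, hmt, hb⟩
    exact ⟨ht, m, hm, hmt, fun h2 => hb (allDegrees_of h2)⟩)
  refine ⟨η, hη, fun C => ?_⟩
  obtain ⟨N₁, hN₁⟩ := h C
  refine ⟨N₁, fun N hN S hS hκS => ?_⟩
  have h1 := hN₁ N hN S hS hκS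
  have h2 : S.filter (0 < ·) = S := by
    apply Finset.filter_true_of_mem
    intro t ht
    exact (Finset.mem_Ioc.1 (hS.1 ht)).1
  rw [h2] at h1
  exact h1

/-- **Main result.** -/
theorem result (Q : Polynomial ℤ) (hQ : 1 ≤ Q.natDegree) (hl : 0 < Q.leadingCoeff) (κ : ℝ) (hκ : 0 < κ) :
    (∃ η : ℝ, 0 < η ∧ ∀ C : ℝ, ∃ N₀ : ℕ, ∀ N : ℕ, N₀ ≤ N → ∀ S : Finset ℕ, Structured C η N S →
      κ * N ≤ S.card → (S.card : ℝ) / 10 ^ 89 ≤
        ({t : ℕ | t ∈ S ∧ ∃ m : ℕ, (m : ℤ) = Q.eval (t : ℤ) ∧ Holds m}.ncard : ℝ)) ∧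
    (∀ n : ℕ, 10 ≤ n → ∀ δ : ℝ, 0 < δ →
      ∃ η : ℝ, 0 < η ∧ ∀ C : ℝ, ∃ N₀ : ℕ, ∀ N : ℕ, N₀ ≤ N → ∀ S : Finset ℕ, Structured C η N S →
        κ * N ≤ S.card →
          ({t : ℕ | t ∈ S ∧ ∃ m : ℕ, 1 ≤ m ∧ (m : ℤ) = Q.eval (t : ℤ) ∧ ¬ AllDegrees n m}.ncard : ℝ) ≤
            (bad n + δ) * S.card) ∧
    (∀ (G : Type) [AddCommGroup G] [Finite G] (f : ℕ → G) (D : Set ℕ) (a : G),
      (∀ m n : ℕ, Nat.Coprime m n → (m * n ∈ D ↔ m ∈ D ∧ n ∈ D)) →
      (∀ m n : ℕ, Nat.Coprime m n → m ∈ D → n ∈ D → f (m * n) = f m + f n) →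
      ∀ (N : ℕ) (S : Finset ℕ), (∀ t : ℕ, t ∈ S ↔ (1 ≤ t ∧ t ≤ N) ∧ t ∈ D ∧ f t = a) →
        ∀ C η : ℝ, 1 ≤ C → 0 ≤ η → Structured C η N S) ∧
    (∀ n : ℕ, 10 ≤ n → bad n < 1) ∧
    (bad 10 < 0.163 ∧ bad 11 < 0.053 ∧ bad 12 < 0.465 ∧ bad 14 < 0.738 ∧ bad 15 < 0.146) :=
  ⟨all_points Q hQ hl κ hκ, fun n hn δ hδ => one_number Q hQ κ hκ n hn δ hδ,
    fun _ _ _ f D a hD hf N S hS _ _ hC hη => structured_group f D a hD hf N S hS hC hη,
    fun _ hn => Pool.Agent.N141.SG.badU_lt hn, Pool.Agent.N141.SG.badU_vals⟩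

end Pool.Agent.Results.MP_d03834_ag.MultiplicativeStructure
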