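import Pool.Agent.Zk49.Sh

/-!
# At least three of any four consecutive degrees: the uniform Harbourne-Hirschowitz conjecture for all
# multiplicities

Let `n ≥ 10`. Say that the conjecture holds for the degree `d` (and `n` points) if for EVERY multiplicity
`m ≥ 1` the space of the forms of degree `d` which vanish to order `m` at `n` general points of the complex
projective plane has the expected dimension (`AllMultiplicities n d`), and call `d` exceptional for `n`
otherwise.

**Theorem.** (1) For EVERY `n ≥ 10` the distance of two exceptional degrees is at least `4`: the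
conjecture holds for at least three of any four consecutive degrees, for all multiplicities. The distance
is at least `gap n`, `gap n = 19, 597, 7, 4, 93` for `n = 10, 11, 12, 14, 15`, `gap n = 4` for
`17 ≤ n ≤ 24`, `gap n = 5` for `26 ≤ n ≤ 34` and `gap 35 = 6`. So for `n = 10` the conjecture holds for
all degrees but one in any `19` consecutive ones, for `n = 11` for all but one in any `597`.

(2) Any seven consecutive degrees contain one for which the conjecture holds for ALL multiplicities and
for all the numbers of points `n ≤ 16`, `n = 21, 25, 36` and `n ≥ 37` at once; any twelve consecutive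
degrees contain one for all these `n` and `n = 17`, and any `56` consecutive degrees one for all these `n`
and `n = 17, 18`.

For `n = 13, 21`, the squares and all `n ≥ 37` there are no exceptional degrees by the starting results.
The starting result `PositiveProportionOfDegrees` shows that at least `1.4` per cent of the degrees are
not exceptional for all `n ≥ 10` at once, in very long intervals (the length is not explicit).

Proof. By the starting results `EffectiveEveryField` and `ElevenFifteenTwentySevenSharper` for an
exceptional `d` there is a multiplicity `m` such that `2 d + 3 - √n (2 m + 1)` is in a certain window of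
length less than `2 (√n - 3)` for `n ≥ 14`, of this length for `n = 10` and `n = 12`, and for `n = 11` and
`n = 15` moreover `3 ∣ d` and `d - √n m` is in a window of length less than `0.009` and `0.056`. For two
exceptional degrees `d < d'` the multiplicities satisfy `m < m'`, and
`|(d' - d) - √n (m' - m)|` is small; the return times of the rotation by `√n` modulo one (modulo three)
bound `m' - m` from below, and so `d' - d`. (2) follows from (1) by counting.
-/

set_option autoImplicit false

namespace Pool.Agent.Results.MP_d03834_ag.RunsOfDegrees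

open MvPolynomial

/-- For general points `P 1, …, P n` (outside the hypersurface `F = 0` of the space of all
configurations) the space of the forms of degree `d` which vanish to order at least `m` at all the
points has the expected dimension. -/
def Expected (n m d : ℕ) : Prop :=
  ∃ F : MvPolynomial (Fin n × Fin 2) ℂ, F ≠ 0 ∧
    ∀ P : Fin n → Fin 2 → ℂ,
      MvPolynomial.eval (fun ij : Fin n × Fin 2 => P ij.1 ij.2) F ≠ 0 →
        Module.finrank ℂ
          ↥(MvPolynomial.homogeneousSubmodule (Fin 3) ℂ d ⊓
            Submodule.restrictScalars ℂ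
              (⨅ i : Fin n,
                (Ideal.span
                  ({MvPolynomial.X 0 - MvPolynomial.C (P i 0) * MvPolynomial.X 2,
                    MvPolynomial.X 1 - MvPolynomial.C (P i 1) * MvPolynomial.X 2} :
                    Set (MvPolynomial (Fin 3) ℂ))) ^ m))
        = Nat.choose (d + 2) 2 - n * Nat.choose (m + 1) 2

/-- The conjecture holds for the degree `d` and `n` general points: for every multiplicity. -/
def AllMultiplicities (n d : ℕ) : Prop := ∀ m : ℕ, 1 ≤ m → Expected n m d

theorem expected_of {n m d : ℕ} (hn : 10 ≤ n) (hm : 1 ≤ m)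
    (h : ¬ Pool.Agent.Zk49.Sh.Win n m d) : Expected n m d := by
  obtain ⟨F, hF, hF'⟩ := Pool.Agent.Zk49.Sh.generic_win hn hm
  refine ⟨F.map (algebraMap ℚ ℂ), Pool.Agent.H932R3.map_ne_zero_of hF, fun P hP => ?_⟩
  rw [MvPolynomial.eval_map] at hP
  have h1 := hF' P hP d h
  unfold Pool.Agent.H932R3.ExpDim at h1
  rw [Finset.sum_const, Finset.card_univ, Fintype.card_fin, smul_eq_mul] at h1
  exact h1

theorem win_of {n d : ℕ} (hn : 10 ≤ n) (h : ¬ AllMultiplicities n d) :
    ∃ m, Pool.Agent.Zk49.Sh.Win n m d := by
  by_contra hcon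
  push Not at hcon
  exact h fun m hm => expected_of hn hm (hcon m)

/-- The distance of two exceptional degrees is at least `gap n`. -/
def gap (n : ℕ) : ℕ :=
  if n = 10 then 19 else if n = 11 then 597 else if n = 12 then 7 else
  if n = 15 then 93 else if n ≤ 24 then 4 else if n ≤ 34 then 5 else 6

theorem gaps {n d d' : ℕ} (hn : 10 ≤ n) (hd : d < d') (h : ¬ AllMultiplicities n d)
    (h' : ¬ AllMultiplicities n d') : d + gap n ≤ d' := by
  obtain ⟨m, hm⟩ := win_of hn h
  obtain ⟨m', hm'⟩ := win_of hn h'
  exact Pool.Agent.Zk49.Sh.gap_deg hn hm hm' hd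

theorem all_of {n d : ℕ} (hn : 10 ≤ n) (h : 37 ≤ n ∨ n = 13 ∨ n = 21 ∨ IsSquare n) :
    AllMultiplicities n d := by
  by_contra hcon
  obtain ⟨m, hm⟩ := win_of hn hcon
  exact hm.1 h

theorem several (s : Finset ℕ) (hs : ∀ n ∈ s, 10 ≤ n) (N : ℕ)
    (hN : ∑ n ∈ s, (N + gap n - 1) / gap n < N) (d : ℕ) :
    ∃ k < N, ∀ n ∈ s, AllMultiplicities n (d + k) := by
  obtain ⟨k, hk, h⟩ := Pool.Agent.Zk49.Sh.exists_none s
    (fun n k => ¬ AllMultiplicities n (d + k)) gap (fun n _ => by
      unfold gap
      split_ifs <;> norm_num) (fun n hn x y hx hy hxy => by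
      have := gaps (hs n hn) (by omega : d + x < d + y) hx hy
      omega) N hN
  exact ⟨k, hk, fun n hn => by
    have := h n hn
    rwa [not_not] at this⟩

/-- **The exceptional degrees have mutual distances at least `4`, for every number of points.** -/
theorem result :
    (∀ n d d' : ℕ, 10 ≤ n → d < d' → ¬ AllMultiplicities n d → ¬ AllMultiplicities n d' →
      d + gap n ≤ d') ∧
    (∀ n : ℕ, 4 ≤ gap n) ∧
    (∀ d : ℕ, ∃ k < 7, ∀ n : ℕ, 10 ≤ n → (n ≤ 16 ∨ n = 21 ∨ IsSquare n ∨ 37 ≤ n) →
      AllMultiplicities n (d + k)) ∧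
    (∀ d : ℕ, ∃ k < 12, ∀ n : ℕ, 10 ≤ n → (n ≤ 17 ∨ n = 21 ∨ IsSquare n ∨ 37 ≤ n) →
      AllMultiplicities n (d + k)) ∧
    (∀ d : ℕ, ∃ k < 56, ∀ n : ℕ, 10 ≤ n → (n ≤ 18 ∨ n = 21 ∨ IsSquare n ∨ 37 ≤ n) →
      AllMultiplicities n (d + k)) := by
  refine ⟨fun n d d' hn hd h h' => gaps hn hd h h', fun n => ?_, fun d => ?_, fun d => ?_,
    fun d => ?_⟩
  · unfold gap
    split_ifs <;> norm_num
  · obtain ⟨k, hk, h⟩ := several {10, 11, 12, 14, 15} (by decide) 7 (by decide) d
    refine ⟨k, hk, fun n hn hn' => ?_⟩
    by_cases hC : 37 ≤ n ∨ n = 13 ∨ n = 21 ∨ IsSquare n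
    · exact all_of hn hC
    · have h16 : n ≤ 16 := by tauto
      have h1 := Pool.Agent.Zk49.Sh.le_cases hn hC (by omega)
      apply h
      simp only [Finset.mem_insert, Finset.mem_singleton] at h1 ⊢
      omega
  · obtain ⟨k, hk, h⟩ := several {10, 11, 12, 14, 15, 17} (by decide) 12 (by decide) d
    refine ⟨k, hk, fun n hn hn' => ?_⟩
    by_cases hC : 37 ≤ n ∨ n = 13 ∨ n = 21 ∨ IsSquare n
    · exact all_of hn hC
    · have h16 : n ≤ 17 := by tauto
      have h1 := Pool.Agent.Zk49.Sh.le_cases hn hC (by omega)
      apply h
      simp only [Finset.mem_insert, Finset.mem_singleton] at h1 ⊢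
      omega
  · obtain ⟨k, hk, h⟩ := several {10, 11, 12, 14, 15, 17, 18} (by decide) 56 (by decide) d
    refine ⟨k, hk, fun n hn hn' => ?_⟩
    by_cases hC : 37 ≤ n ∨ n = 13 ∨ n = 21 ∨ IsSquare n
    · exact all_of hn hC
    · have h16 : n ≤ 18 := by tauto
      exact h n (Pool.Agent.Zk49.Sh.le_cases hn hC h16)

end Pool.Agent.Results.MP_d03834_ag.RunsOfDegrees
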