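import Pool.Agent.Zk49.Sh

/-!
# Short intervals of multiplicities: the uniform Harbourne-Hirschowitz conjecture in every degree

Let `n ≥ 10`. Say that the conjecture holds for the multiplicity `m ≥ 1` (and `n` points) if for `n`
general points of the complex projective plane the space of the forms of degree `d` which vanish to
order `m` at the points has the expected dimension in EVERY degree `d` (`AllDegrees n m`), and call `m`
exceptional for `n` otherwise.

**Theorem.** (1) The exceptional multiplicities are isolated for `n = 10, 11, 12, 15`: the distance
of two of them is at least `6` for `n = 10`, at least `180` for `n = 11`, at least `2` for `n = 12` and at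
least `24` for `n = 15`. So the conjecture holds for at least five of any six consecutive multiplicities
if `n = 10`, for at least `179` of any `180` if `n = 11`, for one of any two if `n = 12`, and for `23` of
any `24` if `n = 15`.

(2) For EVERY number `n ≥ 10` of points the conjecture holds for at least one of any `41` consecutive
multiplicities; for at least one of any `run n ≤ 41` of them, where `run n` is given by a table:
`run 14 = 4`, `run 17 = 41`, `run 28 = 17`, `run 29 = 13`, `run 35 = 12`, for example.

(3) Any ten consecutive multiplicities contain one for which the conjecture holds for all the numbers of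
points `n ∈ {10, 11, 12, 13, 15, 16, 21, 25, 36}` and all `n ≥ 37` at once.

For `n = 13, 21`, the squares and all `n ≥ 37` there are no exceptional multiplicities by the starting
results. For the other `n` the starting results bound the upper density of the set of the exceptional
multiplicities for `n = 11` and `n = 15`, or show that they have gaps in very long intervals
(`DensityOfMultiplicities`, `AllNumbersLongIntervals`); there is no explicit bound for the length of the
intervals.

Proof. By the starting results `EffectiveEveryField` and `ElevenFifteenTwentySevenSharper` for an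
exceptional `m` there is a degree `d` such that `2 d + 3 - √n (2 m + 1)` is in a certain window of length
less than two, and for `n = 11` and `n = 15` moreover `3 ∣ d` and `d - √n m` is in a window of length
less than `0.009` and `0.056`. The numbers `√n m` modulo one (modulo three) are the orbit of a rotation,
and the return times are found with the continued fraction of `√n`; for `n = 10` and `n = 12` the step
of the rotation is precisely the length of the window, and the irrationality of `√n` is used. For (2) the
window is covered by translates of its complement under the rotation (a finite computation in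
integers). (3) follows from (1) by counting.
-/

set_option autoImplicit false

namespace Pool.Agent.Results.MP_d03834_ag.RunsOfMultiplicities

open MvPolynomial

/-- For general points `P 1, …, P n` (outside the hypersurface `F = 0` of the space of all
configurations) the space of the forms of degree `d` which vanish to order at least `m` at all the
points has the expected dimension, for every degree `d`. -/
def AllDegrees (n m : ℕ) : Prop :=
  ∃ F : MvPolynomial (Fin n × Fin 2) ℂ, F ≠ 0 ∧
    ∀ P : Fin n → Fin 2 → ℂ,
      MvPolynomial.eval (fun ij : Fin n × Fin 2 => P ij.1 ij.2) F ≠ 0 →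
      ∀ d : ℕ,
        Module.finrank ℂ
          ↥(MvPolynomial.homogeneousSubmodule (Fin 3) ℂ d ⊓
            Submodule.restrictScalars ℂ
              (⨅ i : Fin n,
                (Ideal.span
                  ({MvPolynomial.X 0 - MvPolynomial.C (P i 0) * MvPolynomial.X 2,
                    MvPolynomial.X 1 - MvPolynomial.C (P i 1) * MvPolynomial.X 2} :
                    Set (MvPolynomial (Fin 3) ℂ))) ^ m))
        = Nat.choose (d + 2) 2 - n * Nat.choose (m + 1) 2

theorem allDegrees_of {n m : ℕ} (hn : 10 ≤ n) (hm : 1 ≤ m)
    (h : ∀ d, ¬ Pool.Agent.Zk49.Sh.Win n m d) : AllDegrees n m := by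
  obtain ⟨F, hF, hF'⟩ := Pool.Agent.Zk49.Sh.generic_win hn hm
  refine ⟨F.map (algebraMap ℚ ℂ), Pool.Agent.H932R3.map_ne_zero_of hF, fun P hP d => ?_⟩
  rw [MvPolynomial.eval_map] at hP
  have h1 := hF' P hP d (h d)
  unfold Pool.Agent.H932R3.ExpDim at h1
  rw [Finset.sum_const, Finset.card_univ, Fintype.card_fin, smul_eq_mul] at h1
  exact h1

theorem win_of {n m : ℕ} (hn : 10 ≤ n) (hm : 1 ≤ m) (h : ¬ AllDegrees n m) :
    ∃ d, Pool.Agent.Zk49.Sh.Win n m d := by
  by_contra hcon
  push Not at hcon
  exact h (allDegrees_of hn hm hcon)

/-- The distance of two exceptional multiplicities is at least `gap n`. -/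
def gap (n : ℕ) : ℕ :=
  if n = 10 then 6 else if n = 11 then 180 else if n = 12 then 2 else if n = 15 then 24 else 1

/-- There is a multiplicity which is not exceptional among any `run n` consecutive ones; this is the
number given by the table, and `1` for the other `n`. -/
def run (n : ℕ) : ℕ := ([(10, 2), (11, 2), (12, 2), (14, 4), (15, 2), (17, 41), (18, 33), (19, 39),
  (20, 36), (22, 29), (23, 39), (24, 39), (26, 31), (27, 36), (28, 17), (29, 13), (30, 21), (31, 23),
  (32, 26), (33, 31), (34, 29), (35, 12)] : List (ℕ × ℕ)).lookup n |>.getD 1

theorem gaps {n m m' : ℕ} (hn : 10 ≤ n) (hm : 1 ≤ m) (hmm : m < m') (h : ¬ AllDegrees n m)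
    (h' : ¬ AllDegrees n m') : m + gap n ≤ m' := by
  obtain ⟨d, hd⟩ := win_of hn hm h
  obtain ⟨d', hd'⟩ := win_of hn (by omega) h'
  exact Pool.Agent.Zk49.Sh.gap hn hd hd' hmm

theorem run_le (n : ℕ) : run n ≤ 41 := by
  unfold run
  by_cases h : n ≤ 36
  · interval_cases n <;> decide
  · have hne : ∀ s : ℕ, s ≤ 36 → (n == s) = false := by
      intro s hs
      rw [beq_eq_false_iff_ne]
      omega
    simp [List.lookup, hne]

/-- **Exceptional multiplicities are isolated for `10`, `11`, `12` and `15` points, and there are no `41`
consecutive ones for any number of points.** -/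
theorem result :
    (∀ n m m' : ℕ, 10 ≤ n → 1 ≤ m → m < m' → ¬ AllDegrees n m → ¬ AllDegrees n m' →
      m + gap n ≤ m') ∧
    (∀ n m : ℕ, 10 ≤ n → 1 ≤ m → ∃ k < run n, AllDegrees n (m + k)) ∧
    (∀ n : ℕ, run n ≤ 41) ∧
    (∀ m : ℕ, 1 ≤ m → ∃ k < 10, ∀ n : ℕ, 10 ≤ n →
      (n ∈ ({10, 11, 12, 13, 15, 21} : Set ℕ) ∨ IsSquare n ∨ 37 ≤ n) → AllDegrees n (m + k)) := by
  refine ⟨fun n m m' hn hm hmm h h' => gaps hn hm hmm h h', fun n m hn hm => ?_, run_le,
    fun m hm => ?_⟩
  · obtain ⟨k, hk, h⟩ := Pool.Agent.Zk49.Sh.runs hn m
    exact ⟨k, hk, allDegrees_of hn (by omega) h⟩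
  · obtain ⟨k, hk, h⟩ := Pool.Agent.Zk49.Sh.exists_none ({10, 11, 12, 15} : Finset ℕ)
      (fun n k => ¬ AllDegrees n (m + k)) gap (by decide) (fun n hn x y hx hy hxy => by
        have h10 : 10 ≤ n := by
          simp only [Finset.mem_insert, Finset.mem_singleton] at hn
          omega
        have := gaps h10 (by omega) (by omega : m + x < m + y) hx hy
        omega) 10 (by decide)
    refine ⟨k, hk, fun n hn hn' => ?_⟩
    by_cases h4 : n ∈ ({10, 11, 12, 15} : Finset ℕ)
    · have := h n h4
      rwa [not_not] at this
    · apply allDegrees_of hn (by omega)
      intro d hd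
      apply hd.1
      simp only [Set.mem_insert_iff, Set.mem_singleton_iff, Finset.mem_insert,
        Finset.mem_singleton] at hn' h4
      tauto

end Pool.Agent.Results.MP_d03834_ag.RunsOfMultiplicities
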